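import Pool.Agent.TH158.FM.Stm
import Pool.Agent.H581R3.GPR.Rot

/-!
# FM-SERIES: Mellin inversion term by term on `Re s = 2` (helper150 for helper158)
-/

set_option autoImplicit false

namespace Pool.Agent.TH150.FMSeries

open Complex MeasureTheory Set Pool.Agent.TH158.FM

theorem ww_eq (δ : ℝ) : ww δ = Complex.exp (((Real.pi / 2 - δ : ℝ) : ℂ) * I) := by
  rw [Complex.exp_mul_I, ← Complex.ofReal_cos, ← Complex.ofReal_sin, Real.cos_pi_div_two_sub,
    Real.sin_pi_div_two_sub]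
  rfl

theorem re_pos {φ : ℝ} (h1 : -(Real.pi / 2) < φ) (h2 : φ < Real.pi / 2) :
    0 < (cexp ((φ : ℂ) * I)).re := by
  rw [Complex.exp_ofReal_mul_I_re]
  exact Real.cos_pos_of_mem_Ioo ⟨h1, h2⟩

theorem gam_int {φ : ℝ} (h1 : -(Real.pi / 2) < φ) (h2 : φ < Real.pi / 2) {s : ℂ} (hs : 0 < s.re) :
    ∫ t : ℝ in Ioi 0, (t : ℂ) ^ (s - 1) * cexp (-(cexp ((φ : ℂ) * I) * t)) =
      Complex.Gamma s * cexp (-((φ : ℂ) * I) * s) := by
  rw [Pool.Agent.H581R3.GPR.Rot.rot_formula hs (re_pos h1 h2), mul_comm]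
  congr 1
  have e1 : 1 / cexp ((φ : ℂ) * I) = cexp (-((φ : ℂ) * I)) := by rw [Complex.exp_neg, one_div]
  have him : (-((φ : ℂ) * I)).im = -φ := by simp
  rw [e1, Complex.cpow_def_of_ne_zero (Complex.exp_ne_zero _), Complex.log_exp]
  · rw [him]
    linarith [Real.pi_pos]
  · rw [him]
    linarith [Real.pi_pos]

theorem norm_integrand (r : ℂ) {t : ℝ} (ht : 0 < t) (s : ℂ) :
    ‖(t : ℂ) ^ (s - 1) * cexp (-(r * t))‖ = t ^ (s.re - 1) * Real.exp (-(r.re * t)) := by
  rw [norm_mul, Complex.norm_cpow_eq_rpow_re_of_pos ht, Complex.norm_exp]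
  simp

theorem pt_re (t : ℝ) : (pt 2 t).re = 2 := by simp [pt]

theorem pt_im (t : ℝ) : (pt 2 t).im = t := by simp [pt]

theorem norm_g (φ t : ℝ) : ‖Complex.Gamma (pt 2 t) * cexp (-((φ : ℂ) * I) * pt 2 t)‖ =
    ‖Complex.Gamma (pt 2 t)‖ * Real.exp (φ * t) := by
  rw [norm_mul, Complex.norm_exp]
  congr 2
  simp [pt]

theorem gam_bound {φ : ℝ} (h1 : -(Real.pi / 2) < φ) (h2 : φ < Real.pi / 2) (t : ℝ) :
    ‖Complex.Gamma (pt 2 t)‖ * Real.exp (φ * t) ≤ (1 / Real.cos φ) ^ (2 : ℝ) * Real.Gamma 2 := by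
  have hs : 0 < (pt 2 t).re := by rw [pt_re]; norm_num
  have hcos : 0 < Real.cos φ := Real.cos_pos_of_mem_Ioo ⟨h1, h2⟩
  rw [← norm_g, ← gam_int h1 h2 hs]
  refine (norm_integral_le_integral_norm _).trans (le_of_eq ?_)
  rw [← Real.integral_rpow_mul_exp_neg_mul_Ioi (by norm_num : (0 : ℝ) < 2) hcos]
  refine setIntegral_congr_fun measurableSet_Ioi fun u hu => ?_
  change ‖(u : ℂ) ^ (pt 2 t - 1) * cexp (-(cexp ((φ : ℂ) * I) * u))‖ = _
  rw [norm_integrand _ hu, pt_re, Complex.exp_ofReal_mul_I_re]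

theorem int_abs {c : ℝ} (hc : 0 < c) : Integrable (fun t : ℝ => Real.exp (-(c * |t|))) := by
  rw [← integrableOn_univ, ← Iic_union_Ioi (a := (0 : ℝ))]
  refine IntegrableOn.union ?_ ?_
  · refine (integrableOn_exp_mul_Iic hc 0).congr_fun (fun t ht => ?_) measurableSet_Iic
    have : t ≤ 0 := ht
    simp only [abs_of_nonpos this]
    congr 1
    ring
  · refine (integrableOn_exp_mul_Ioi (a := -c) (by linarith) 0).congr_fun (fun t ht => ?_)
      measurableSet_Ioi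
    have : 0 < t := ht
    simp only [abs_of_pos this]
    congr 1
    ring

theorem cont_gam : Continuous (fun t : ℝ => Complex.Gamma (pt 2 t)) := by
  rw [continuous_iff_continuousAt]
  intro t
  have h1 : DifferentiableAt ℂ Complex.Gamma (pt 2 t) := by
    refine Complex.differentiableAt_Gamma _ fun m h => ?_
    have := congrArg Complex.re h
    rw [pt_re] at this
    simp at this
    have h0 : (0 : ℝ) ≤ m := Nat.cast_nonneg m
    linarith
  have h2 : ContinuousAt (fun t : ℝ => pt 2 t) t := by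
    unfold pt
    fun_prop
  exact ContinuousAt.comp (f := fun t : ℝ => pt 2 t) h1.continuousAt h2

/-- `Γ(s) exp(-i θ s)` on the line `Re s = 2` is integrable -/
theorem int_g {θ : ℝ} (h0 : 0 < θ) (h2 : θ < Real.pi / 2) :
    Integrable (fun t : ℝ => Complex.Gamma (pt 2 t) * cexp (-((θ : ℂ) * I) * pt 2 t)) := by
  set φ : ℝ := (θ + Real.pi / 2) / 2 with hφ
  have hφ1 : θ < φ := by rw [hφ]; linarith
  have hφ2 : φ < Real.pi / 2 := by rw [hφ]; linarith
  have hφ0 : 0 < φ := by linarith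
  set C : ℝ := (1 / Real.cos φ) ^ (2 : ℝ) * Real.Gamma 2 with hC
  refine ((int_abs (sub_pos.2 hφ1)).const_mul C).mono' ?_ (Filter.Eventually.of_forall fun t => ?_)
  · refine Continuous.aestronglyMeasurable (cont_gam.mul ?_)
    unfold pt
    fun_prop
  · rw [norm_g]
    have b1 := gam_bound (φ := φ) (by linarith) hφ2 t
    have b2 := gam_bound (φ := -φ) (by linarith) (by linarith) t
    rw [Real.cos_neg, ← hC] at b2
    rw [← hC] at b1
    have hG : 0 ≤ ‖Complex.Gamma (pt 2 t)‖ := norm_nonneg _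
    rcases le_total 0 t with ht | ht
    · rw [abs_of_nonneg ht]
      have e1 : Real.exp (θ * t) = Real.exp (φ * t) * Real.exp (-((φ - θ) * t)) := by
        rw [← Real.exp_add]
        congr 1
        ring
      rw [e1, ← mul_assoc]
      exact mul_le_mul_of_nonneg_right b1 (Real.exp_pos _).le
    · rw [abs_of_nonpos ht]
      have e1 : Real.exp (θ * t) ≤ Real.exp (-φ * t) * Real.exp (-((φ - θ) * -t)) := by
        rw [← Real.exp_add]
        apply Real.exp_le_exp.2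
        nlinarith
      calc ‖Complex.Gamma (pt 2 t)‖ * Real.exp (θ * t)
          ≤ ‖Complex.Gamma (pt 2 t)‖ * (Real.exp (-φ * t) * Real.exp (-((φ - θ) * -t))) := by
            gcongr
        _ = (‖Complex.Gamma (pt 2 t)‖ * Real.exp (-φ * t)) * Real.exp (-((φ - θ) * -t)) := by ring
        _ ≤ _ := mul_le_mul_of_nonneg_right b2 (Real.exp_pos _).le

/-- Mellin inversion for `exp(-w u)` -/
theorem inv_one {θ : ℝ} (h0 : 0 < θ) (h2 : θ < Real.pi / 2) {y : ℝ} (hy : 0 < y) :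
    ∫ t : ℝ, (y : ℂ) ^ (-(pt 2 t)) *
      (Complex.Gamma (pt 2 t) * cexp (-((θ : ℂ) * I) * pt 2 t)) =
      2 * Real.pi * cexp (-(cexp ((θ : ℂ) * I) * y)) := by
  have h1 : -(Real.pi / 2) < θ := by linarith
  have hmel : ∀ s : ℂ, 0 < s.re → mellin (fun u : ℝ => cexp (-(cexp ((θ : ℂ) * I) * u))) s =
      Complex.Gamma s * cexp (-((θ : ℂ) * I) * s) := by
    intro s hs
    rw [← gam_int h1 h2 hs]
    rfl
  have hconv : MellinConvergent (fun u : ℝ => cexp (-(cexp ((θ : ℂ) * I) * u))) ((2 : ℝ) : ℂ) := by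
    have hcos : 0 < Real.cos θ := Real.cos_pos_of_mem_Ioo ⟨h1, h2⟩
    have hb := Pool.Agent.H581R3.GPR.Rot.int_rpow_exp (s := 1) (by norm_num) hcos
    refine Integrable.mono' hb (Pool.Agent.H581R3.GPR.Rot.cpow_exp_meas _ _) ?_
    refine (ae_restrict_iff' measurableSet_Ioi).2 (Filter.Eventually.of_forall fun u hu => ?_)
    change ‖(u : ℂ) ^ (((2 : ℝ) : ℂ) - 1) * cexp (-(cexp ((θ : ℂ) * I) * u))‖ ≤ _
    rw [norm_integrand _ hu, Complex.exp_ofReal_mul_I_re, Complex.ofReal_re]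
    norm_num
  have hvert : VerticalIntegrable (mellin (fun u : ℝ => cexp (-(cexp ((θ : ℂ) * I) * u)))) 2 := by
    unfold VerticalIntegrable
    refine (int_g h0 h2).congr (Filter.Eventually.of_forall fun t => ?_)
    exact (hmel (pt 2 t) (by rw [pt_re]; norm_num)).symm
  have key := mellinInv_mellin_eq 2 (fun u : ℝ => cexp (-(cexp ((θ : ℂ) * I) * u))) hy hconv hvert
    (by fun_prop)
  unfold mellinInv at key
  have e1 : ∫ t : ℝ, (y : ℂ) ^ (-(((2 : ℝ) : ℂ) + (t : ℂ) * I)) •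
      mellin (fun u : ℝ => cexp (-(cexp ((θ : ℂ) * I) * u))) (((2 : ℝ) : ℂ) + (t : ℂ) * I) =
      ∫ t : ℝ, (y : ℂ) ^ (-(pt 2 t)) *
      (Complex.Gamma (pt 2 t) * cexp (-((θ : ℂ) * I) * pt 2 t)) := by
    refine integral_congr_ae (Filter.Eventually.of_forall fun t => ?_)
    change (y : ℂ) ^ (-(pt 2 t)) •
      mellin (fun u : ℝ => cexp (-(cexp ((θ : ℂ) * I) * u))) (pt 2 t) = _
    rw [hmel (pt 2 t) (by rw [pt_re]; norm_num), smul_eq_mul]
  rw [e1] at key
  have hpi : (Real.pi : ℂ) ≠ 0 := by exact_mod_cast Real.pi_ne_zero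
  rw [← key, Complex.real_smul]
  generalize (∫ t : ℝ, (y : ℂ) ^ (-(pt 2 t)) *
      (Complex.Gamma (pt 2 t) * cexp (-((θ : ℂ) * I) * pt 2 t))) = J
  push_cast
  field_simp

theorem hasSum_dd {s : ℂ} (hs : 1 < s.re) :
    HasSum (fun n : ℕ => (dd n : ℂ) * (n : ℂ) ^ (-s)) (riemannZeta s ^ 2) := by
  have h1 := LSeriesHasSum.convolution (LSeriesHasSum_one hs) (LSeriesHasSum_one hs)
  have hc : ∀ n : ℕ, (LSeries.convolution (1 : ℕ → ℂ) (1 : ℕ → ℂ)) n = (dd n : ℂ) := by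
    intro n
    rw [LSeries.convolution_def]
    have e := Nat.sum_divisorsAntidiagonal (n := n) (fun _ _ => (1 : ℂ))
    simp only [Pi.one_apply, mul_one]
    rw [e]
    simp [dd]
  unfold LSeriesHasSum at h1
  rw [← pow_two] at h1
  have h0 : (LSeries.convolution (1 : ℕ → ℂ) (1 : ℕ → ℂ)) 0 = 0 := LSeries.convolution_map_zero _ _
  have e2 : (fun n : ℕ => (dd n : ℂ) * (n : ℂ) ^ (-s)) =
      LSeries.term (LSeries.convolution (1 : ℕ → ℂ) (1 : ℕ → ℂ)) s := by
    funext n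
    rw [LSeries.term_def₀ h0, hc]
  rw [e2]
  exact h1

end Pool.Agent.TH150.FMSeries

namespace Pool.Agent.TH158.FM

open Complex MeasureTheory Set Pool.Agent.TH150.FMSeries

theorem series_all : S_SERIES := by
  intro δ hδ0 hδ2 x hx
  set θ : ℝ := Real.pi / 2 - δ with hθ
  have h0 : 0 < θ := by rw [hθ]; linarith
  have h2 : θ < Real.pi / 2 := by rw [hθ]; linarith
  -- the terms
  let G : ℝ → ℂ := fun t => Complex.Gamma (pt 2 t) * cexp (-((θ : ℂ) * I) * pt 2 t)
  have hG : Integrable G := int_g h0 h2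
  let F : ℕ → ℝ → ℂ := fun n t => (dd n : ℂ) * (((n * x : ℝ) : ℂ) ^ (-(pt 2 t)) * G t)
  have hdd0 : dd 0 = 0 := by simp [dd]
  have hdd : ∀ n, 0 ≤ dd n := fun n => Nat.cast_nonneg _
  have hcpow : ∀ (n : ℕ) (t : ℝ), n ≠ 0 →
      ‖((n * x : ℝ) : ℂ) ^ (-(pt 2 t))‖ = (n * x) ^ (-2 : ℝ) := by
    intro n t hn
    have hn' : (0 : ℝ) < n := by exact_mod_cast Nat.pos_of_ne_zero hn
    rw [Complex.norm_cpow_eq_rpow_re_of_pos (by positivity), Complex.neg_re, pt_re]
  have hFn : ∀ (n : ℕ) (t : ℝ), ‖F n t‖ = dd n * (n * x) ^ (-2 : ℝ) * ‖G t‖ := by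
    intro n t
    rcases eq_or_ne n 0 with rfl | hn
    · simp [F, hdd0]
    · change ‖(dd n : ℂ) * (((n * x : ℝ) : ℂ) ^ (-(pt 2 t)) * G t)‖ = _
      rw [norm_mul, norm_mul, hcpow n t hn, Complex.norm_real, Real.norm_of_nonneg (hdd n)]
      ring
  have hFm : ∀ n : ℕ, AEStronglyMeasurable (F n) volume := by
    intro n
    rcases eq_or_ne n 0 with rfl | hn
    · have : F 0 = fun _ => 0 := by
        funext t
        simp [F, hdd0]
      rw [this]
      exact aestronglyMeasurable_const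
    · have hn' : (0 : ℝ) < n := by exact_mod_cast Nat.pos_of_ne_zero hn
      have hne : ((n * x : ℝ) : ℂ) ≠ 0 := by
        exact_mod_cast (mul_pos hn' hx).ne'
      refine AEStronglyMeasurable.const_mul ?_ _
      refine AEStronglyMeasurable.mul ?_ hG.1
      refine Continuous.aestronglyMeasurable ?_
      refine Continuous.const_cpow ?_ (Or.inl hne)
      unfold pt
      fun_prop
  have hFint : ∀ n : ℕ, Integrable (F n) := by
    intro n
    refine (hG.norm.const_mul (dd n * (n * x) ^ (-2 : ℝ))).mono' (hFm n) ?_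
    exact Filter.Eventually.of_forall fun t => (hFn n t).le
  have hsum2 : Summable (fun n : ℕ => dd n * (n * x) ^ (-2 : ℝ)) := by
    have h1 := (hasSum_dd (s := 2) (by norm_num)).summable.norm
    refine (h1.mul_right (x ^ (-2 : ℝ))).congr fun n => ?_
    rcases eq_or_ne n 0 with rfl | hn
    · simp [hdd0]
    · have hn' : (0 : ℝ) < n := by exact_mod_cast Nat.pos_of_ne_zero hn
      rw [norm_mul, Complex.norm_real, Real.norm_of_nonneg (hdd n), Real.mul_rpow hn'.le hx.le]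
      have : ‖(n : ℂ) ^ (-2 : ℂ)‖ = (n : ℝ) ^ (-2 : ℝ) := by
        have e := Complex.norm_cpow_eq_rpow_re_of_pos hn' (-2 : ℂ)
        simpa using e
      rw [this]
      ring
  have hFsum : Summable fun n : ℕ => ∫ t, ‖F n t‖ := by
    have e : (fun n : ℕ => ∫ t, ‖F n t‖) =
        fun n : ℕ => dd n * (n * x) ^ (-2 : ℝ) * ∫ t, ‖G t‖ := by
      funext n
      rw [← integral_const_mul]
      exact integral_congr_ae (Filter.Eventually.of_forall fun t => hFn n t)
    rw [e]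
    exact hsum2.mul_right _
  have key := hasSum_integral_of_summable_integral_norm hFint hFsum
  -- pointwise sum
  have hpt : ∀ t : ℝ, ∑' n : ℕ, F n t = GG δ (pt 2 t) * (x : ℂ) ^ (-(pt 2 t)) := by
    intro t
    have h1 := (hasSum_dd (s := pt 2 t) (by rw [pt_re]; norm_num)).mul_right
      ((x : ℂ) ^ (-(pt 2 t)) * G t)
    have h3 : (fun n : ℕ => (dd n : ℂ) * (n : ℂ) ^ (-(pt 2 t)) *
        ((x : ℂ) ^ (-(pt 2 t)) * G t)) = fun n => F n t := by
      funext n
      change _ = (dd n : ℂ) * (((n * x : ℝ) : ℂ) ^ (-(pt 2 t)) * G t)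
      rw [Complex.ofReal_mul, Complex.mul_cpow_ofReal_nonneg (Nat.cast_nonneg n) hx.le,
        Complex.ofReal_natCast]
      ring
    rw [h3] at h1
    rw [h1.tsum_eq]
    unfold GG
    change riemannZeta (pt 2 t) ^ 2 * ((x : ℂ) ^ (-(pt 2 t)) *
      (Complex.Gamma (pt 2 t) * cexp (-((θ : ℂ) * I) * pt 2 t))) = _
    ring
  -- the integrals of the terms
  have hint : ∀ n : ℕ, ∫ t, F n t = 2 * Real.pi *
      ((dd n : ℂ) * cexp (-((n * x : ℝ) : ℂ) * ww δ)) := by
    intro n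
    rcases eq_or_ne n 0 with rfl | hn
    · simp [F, hdd0]
    · have hn' : (0 : ℝ) < n := by exact_mod_cast Nat.pos_of_ne_zero hn
      have h1 := inv_one h0 h2 (mul_pos hn' hx)
      change ∫ t, (dd n : ℂ) * (((n * x : ℝ) : ℂ) ^ (-(pt 2 t)) * G t) = _
      rw [integral_const_mul]
      have e2 : ∫ t, (((n * x : ℝ) : ℂ) ^ (-(pt 2 t)) * G t) =
          2 * Real.pi * cexp (-(cexp ((θ : ℂ) * I) * ((n * x : ℝ) : ℂ))) := h1
      rw [e2, ww_eq δ]
      have e3 : -(cexp ((θ : ℂ) * I) * ((n * x : ℝ) : ℂ)) =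
          -((n * x : ℝ) : ℂ) * cexp (((Real.pi / 2 - δ : ℝ) : ℂ) * I) := by
        rw [hθ]
        ring
      rw [e3]
      ring
  have e1 : (∫ t : ℝ, GG δ (pt 2 t) * (x : ℂ) ^ (-(pt 2 t))) = ∫ t, ∑' n, F n t :=
    integral_congr_ae (Filter.Eventually.of_forall fun t => (hpt t).symm)
  rw [e1, ← key.tsum_eq]
  unfold FF
  rw [← tsum_mul_left]
  exact tsum_congr hint

end Pool.Agent.TH158.FM
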